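import Pool.Agent.Y645.UL.Stm2

/-!
# Closed points of small rank are dense (`S_TOR`)
-/

set_option autoImplicit false

namespace Pool.Agent.Y153.UL

open MvPolynomial Module Pool.Agent.Y645.UL

/-- the positive part of an exponent vector -/
noncomputable def up {τ : Type} [Fintype τ] (c : τ → ℤ) : τ →₀ ℕ :=
  Finsupp.equivFunOnFinite.symm (fun t => (c t).toNat)

lemma up_apply {τ : Type} [Fintype τ] (c : τ → ℤ) (t : τ) : up c t = (c t).toNat := rfl

lemma aeval_up (k : Type) {L τ : Type} [Field k] [Field L] [Algebra k L] [Fintype τ]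
    (y : τ → Lˣ) (c : τ → ℤ) :
    aeval (fun t => (y t : L)) (monomial (up c) (1 : k)) =
      ((∏ t, y t ^ (c t).toNat : Lˣ) : L) := by
  rw [aeval_monomial, map_one, one_mul, Finsupp.prod_fintype _ _ (fun _ => pow_zero _),
    Units.coe_prod]
  refine Finset.prod_congr rfl fun t _ => ?_
  rw [Units.val_pow_eq_pow_val, up_apply]

lemma mon_rel (k : Type) {L τ : Type} [Field k] [Field L] [Algebra k L] [Fintype τ]
    (y : τ → Lˣ) (c : τ → ℤ) : mon y c = 1 ↔
      aeval (fun t => (y t : L)) (monomial (up c) (1 : k) - monomial (up (-c)) (1 : k)) = 0 := by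
  rw [map_sub, aeval_up, aeval_up, sub_eq_zero, Units.val_inj]
  have h1 : mon y c = (∏ t, y t ^ (c t).toNat) / ∏ t, y t ^ ((-c) t).toNat := by
    rw [mon, ← Finset.prod_div_distrib]
    refine Finset.prod_congr rfl fun t _ => ?_
    rw [← zpow_natCast, ← zpow_natCast, div_eq_mul_inv, ← zpow_sub, Pi.neg_apply,
      Int.toNat_sub_toNat_neg]
  rw [h1, div_eq_one]

/-- relations are preserved by specializations -/
lemma lam_le {k F ι : Type} [Field k] [Field F] [Algebra k F] [Fintype ι] {a : ι → Fˣ}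
    {x : ι → kˣ} (h : Spc k a x) : Lam a ≤ Lam x := by
  intro c hc
  rw [mem_Lam_mon, mon_rel k] at hc ⊢
  exact h _ hc

/-- independent units have no multiplicative relations -/
lemma rel_zero {k F τ : Type} [Field k] [Field F] [Algebra k F] [Fintype τ] {y : τ → Fˣ}
    (h : AlgebraicIndependent k (fun t => (y t : F))) {c : τ → ℤ} (hc : mon y c = 1) : c = 0 := by
  rw [mon_rel k] at hc
  have h1 := h.eq_zero_of_aeval_eq_zero _ hc
  rw [sub_eq_zero] at h1
  have h2 : up c = up (-c) := monomial_left_injective (one_ne_zero) h1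
  funext t
  have h3 : up c t = up (-c) t := by rw [h2]
  rw [up_apply, up_apply, Pi.neg_apply] at h3
  have h4 := Int.toNat_sub_toNat_neg (c t)
  rw [h3] at h4
  rw [← h4]
  simp

/-- the roots of unity are an infinite set -/
lemma inf_roots (k : Type) [Field k] [CharZero k] [IsAlgClosed k] :
    {ζ : k | ∃ n : ℕ, 1 ≤ n ∧ ζ ^ n = 1}.Infinite := by
  have hex : ∀ n : ℕ, ∃ ζ : k, IsPrimitiveRoot ζ (n + 1) := fun n => by
    have : NeZero ((n + 1 : ℕ) : k) := ⟨Nat.cast_ne_zero.2 (Nat.succ_ne_zero n)⟩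
    exact HasEnoughRootsOfUnity.exists_primitiveRoot k (n + 1)
  choose ζ hζ using hex
  refine Set.infinite_of_injective_forall_mem (f := ζ) ?_ fun n =>
    ⟨n + 1, by omega, (hζ n).pow_eq_one⟩
  intro n m hnm
  have h1 := (hζ n).eq_orderOf
  have h2 := (hζ m).eq_orderOf
  rw [hnm, ← h2] at h1
  omega

open Classical in
/-- extension by zero -/
noncomputable def ex0 {ι : Type} (B : Finset ι) : (B → ℤ) →ₗ[ℤ] (ι → ℤ) where
  toFun c j := if h : j ∈ B then c ⟨j, h⟩ else 0
  map_add' c c' := by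
    funext j
    simp only [Pi.add_apply]
    split_ifs <;> simp
  map_smul' r c := by
    funext j
    simp only [Pi.smul_apply, RingHom.id_apply]
    split_ifs <;> simp

open Classical in
lemma ex0_mem {ι : Type} {B : Finset ι} (c : B → ℤ) (b : B) : ex0 B c b = c b := by
  change (if h : (b : ι) ∈ B then c ⟨b, h⟩ else 0) = c b
  rw [dif_pos b.2]

open Classical in
lemma ex0_not {ι : Type} {B : Finset ι} (c : B → ℤ) {j : ι} (hj : j ∉ B) : ex0 B c j = 0 := by
  change (if h : j ∈ B then c ⟨j, h⟩ else 0) = 0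
  rw [dif_neg hj]

theorem t_TOR : S_EXT → S_TOR := by
  intro hEXT k F ι _ _ _ _ _ _ a f hf
  classical
  obtain ⟨B, hBc, hAI, hAlg⟩ := exists_basis (k := k) (fun j => (a j : F))
  obtain ⟨s, hs, hx⟩ := hEXT k F ι a f B hf hAI hAlg
  -- torsion coordinates
  obtain ⟨ζ, hζ1, hζ2⟩ : ∃ ζ : B → k, (∀ b, ∃ n : ℕ, 1 ≤ n ∧ ζ b ^ n = 1) ∧ eval ζ s ≠ 0 := by
    by_contra hcon
    push Not at hcon
    apply hs
    refine funext_set (fun _ => {ζ : k | ∃ n : ℕ, 1 ≤ n ∧ ζ ^ n = 1}) (fun _ => inf_roots k)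
      fun y hy => ?_
    rw [map_zero]
    exact hcon y fun b => hy b (Set.mem_univ b)
  obtain ⟨x, hspc, hfx, hxb⟩ := hx ζ hζ2
  refine ⟨x, hspc, hfx, ?_⟩
  choose n hn1 hn2 using hζ1
  set m : ℕ := ∏ b, n b with hm
  have hm0 : m ≠ 0 := Finset.prod_ne_zero_iff.2 fun b _ => by
    have := hn1 b
    omega
  have hxm : ∀ b : B, x b ^ m = 1 := by
    intro b
    apply Units.ext
    rw [Units.val_pow_eq_pow_val, hxb b, Units.val_one]
    obtain ⟨q, hq⟩ := Finset.dvd_prod_of_mem n (Finset.mem_univ b)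
    rw [hm, hq, pow_mul, hn2, one_pow]
  have hle := lam_le hspc
  -- the map
  have hmem : ∀ c : B → ℤ, (m : ℤ) • ex0 B c ∈ Lam x := by
    intro c
    rw [mem_Lam]
    refine Finset.prod_eq_one fun j _ => ?_
    rw [Pi.smul_apply, smul_eq_mul, zpow_mul, zpow_natCast]
    by_cases hj : j ∈ B
    · rw [hxm ⟨j, hj⟩, one_zpow]
    · rw [ex0_not c hj, zpow_zero]
  let g : (Lam a × (B → ℤ)) →ₗ[ℤ] (ι → ℤ) :=
    (Lam a).subtype.coprod ((m : ℤ) • ex0 B)
  have hg : ∀ q : Lam a × (B → ℤ), g q = (q.1 : ι → ℤ) + (m : ℤ) • ex0 B q.2 := fun q => rfl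
  have hgm : ∀ q, g q ∈ Lam x := fun q => by
    rw [hg]
    exact (Lam x).add_mem (hle q.1.2) (hmem q.2)
  have hinj : Function.Injective (g.codRestrict (Lam x) hgm) := by
    rw [← LinearMap.ker_eq_bot, LinearMap.ker_codRestrict, LinearMap.ker_eq_bot']
    rintro ⟨l, c⟩ h0
    rw [hg] at h0
    -- the relation `l` is supported on `B`
    have hl : ∀ j, j ∉ B → (l : ι → ℤ) j = 0 := by
      intro j hj
      have h1 := congrFun h0 j
      rw [Pi.add_apply, Pi.smul_apply, ex0_not c hj, smul_zero, add_zero] at h1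
      exact h1
    have h2 : mon (fun b : B => a b) (fun b => (l : ι → ℤ) b) = 1 := by
      have h3 : mon a (l : ι → ℤ) = 1 := mem_Lam_mon.1 l.2
      rw [← h3, mon, mon]
      rw [Finset.prod_coe_sort B (fun j => a j ^ (l : ι → ℤ) j)]
      refine Finset.prod_subset (Finset.subset_univ B) fun j _ hj => ?_
      rw [hl j hj, zpow_zero]
    have h4 := rel_zero (y := fun b : B => a b) hAI h2
    have hl0 : (l : ι → ℤ) = 0 := by
      funext j
      by_cases hj : j ∈ B
      · exact congrFun h4 ⟨j, hj⟩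
      · exact hl j hj
    have hc0 : c = 0 := by
      funext b
      have h5 := congrFun h0 (b : ι)
      rw [Pi.add_apply, hl0, Pi.smul_apply, ex0_mem, Pi.zero_apply, zero_add, smul_eq_mul] at h5
      have h6 : (m : ℤ) ≠ 0 := by exact_mod_cast hm0
      exact (mul_eq_zero.1 h5).resolve_left h6
    exact Prod.ext (Subtype.ext hl0) hc0
  have hfr := LinearMap.finrank_le_finrank_of_injective hinj
  rw [Module.finrank_prod, Module.finrank_pi, Fintype.card_coe, hBc] at hfr
  have e1 := mrk_add a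
  have e2 := mrk_add x
  have e3 : tdu k a = td k (fun j => (a j : F)) := rfl
  rw [e3]
  omega

end Pool.Agent.Y153.UL
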